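import Mathlib
import Pool.Agent.H798.BV.Stm6

/-!
# Task B6-S3 (helper789 for helper798): `S_S3` from `S_SB`, `S_TR`
-/

set_option autoImplicit false

namespace Pool.Agent.H789.BV

open Pool.Agent.H798.BV

/-- the product over the small indices: its logarithm is small -/
theorem small_part (hTR : S_TR) {m : ℕ} {l : Fin m → ℂ} (hm : 1 ≤ m)
    (hmean : ∑ k, ‖l k‖ ≤ m) {c C τ : ℝ} (hc : 0 < c) (hcC : c * (C + 4) ≤ 1 / 8) (hC : 0 < C)
    (hs : Real.sqrt m * ‖sR 4 l‖ ≤ C) (hτ : 0 ≤ τ) (hτρ : τ ≤ c / Real.sqrt m) :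
    ∃ ζ : ℂ, ‖ζ‖ ≤ 1 / 8 ∧ ∏ k ∈ Finset.univ.filter (fun k => ¬ 4 < ‖l k‖), (1 - (τ : ℂ) * l k) =
      Complex.exp ζ := by
  have hmR : (1 : ℝ) ≤ m := by exact_mod_cast hm
  have hsq : 1 ≤ Real.sqrt m := by
    rw [Real.one_le_sqrt]; exact hmR
  have hsq0 : 0 < Real.sqrt m := by linarith
  have hsqm : Real.sqrt m * Real.sqrt m = m := Real.mul_self_sqrt (by linarith)
  have hc32 : c ≤ 1 / 32 := by nlinarith
  have hτc : τ * Real.sqrt m ≤ c := by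
    rwa [le_div_iff₀ hsq0] at hτρ
  have hτ32 : τ ≤ 1 / 32 := by nlinarith
  set A := Finset.univ.filter (fun k : Fin m => ¬ 4 < ‖l k‖) with hA
  have hAle : ∀ k ∈ A, ‖l k‖ ≤ 4 := fun k hk => not_lt.1 (Finset.mem_filter.1 hk).2
  have hAsum : ∑ k ∈ A, ‖l k‖ ≤ m :=
    le_trans (Finset.sum_le_sum_of_subset_of_nonneg (Finset.filter_subset _ _)
      fun _ _ _ => norm_nonneg _) hmean
  have hτn : ‖(τ : ℂ)‖ = τ := by rw [Complex.norm_real, Real.norm_of_nonneg hτ]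
  obtain ⟨E, hE, hprod⟩ := hTR m l A 4 (τ : ℂ) (by norm_num) hAle hAsum (by rw [hτn]; linarith)
  refine ⟨_, ?_, hprod⟩
  rw [hτn] at hE
  -- the three parts
  have hS : ‖∑ k ∈ A, l k‖ = m * ‖sR 4 l‖ := by
    unfold sR
    rw [← hA, norm_div, Complex.norm_natCast]
    field_simp
  have h1 : ‖(τ : ℂ) * ∑ k ∈ A, l k‖ ≤ c * C := by
    rw [norm_mul, hτn, hS]
    calc τ * (m * ‖sR 4 l‖) = (τ * Real.sqrt m) * (Real.sqrt m * ‖sR 4 l‖) := by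
          rw [← hsqm]; simp only [Real.sqrt_mul_self hsq0.le]; ring
      _ ≤ c * C := mul_le_mul hτc hs (by positivity) hc.le
  have h2 : ‖∑ k ∈ A, l k ^ 2‖ ≤ 4 * m := by
    calc ‖∑ k ∈ A, l k ^ 2‖ ≤ ∑ k ∈ A, ‖l k ^ 2‖ := norm_sum_le _ _
      _ ≤ ∑ k ∈ A, 4 * ‖l k‖ := by
          refine Finset.sum_le_sum fun k hk => ?_
          rw [norm_pow, pow_two]
          exact mul_le_mul_of_nonneg_right (hAle k hk) (norm_nonneg _)
      _ = 4 * ∑ k ∈ A, ‖l k‖ := by rw [Finset.mul_sum]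
      _ ≤ 4 * m := by linarith
  have hmτ : (m : ℝ) * τ ^ 2 ≤ c ^ 2 := by
    calc (m : ℝ) * τ ^ 2 = (τ * Real.sqrt m) ^ 2 := by
          rw [mul_pow, Real.sq_sqrt (by linarith)]; ring
      _ ≤ c ^ 2 := pow_le_pow_left₀ (by positivity) hτc 2
  have h3 : ‖(τ : ℂ) ^ 2 * (∑ k ∈ A, l k ^ 2) / 2‖ ≤ 2 * c ^ 2 := by
    rw [norm_div, norm_mul, norm_pow, hτn, Complex.norm_ofNat]
    have h4 : τ ^ 2 * ‖∑ k ∈ A, l k ^ 2‖ ≤ τ ^ 2 * (4 * m) :=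
      mul_le_mul_of_nonneg_left h2 (by positivity)
    nlinarith
  have h4 : ‖E‖ ≤ c ^ 2 := by
    refine hE.trans ?_
    have h5 : (m : ℝ) * τ ^ 3 = (m * τ ^ 2) * τ := by ring
    rw [h5]
    nlinarith [mul_nonneg (by positivity : (0 : ℝ) ≤ m * τ ^ 2) hτ,
      mul_le_mul hmτ hτ32 hτ (by positivity : (0 : ℝ) ≤ c ^ 2)]
  calc ‖-((τ : ℂ) * ∑ k ∈ A, l k) - (τ : ℂ) ^ 2 * (∑ k ∈ A, l k ^ 2) / 2 + E‖
      ≤ ‖-((τ : ℂ) * ∑ k ∈ A, l k) - (τ : ℂ) ^ 2 * (∑ k ∈ A, l k ^ 2) / 2‖ + ‖E‖ :=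
        norm_add_le _ _
    _ ≤ ‖-((τ : ℂ) * ∑ k ∈ A, l k)‖ + ‖(τ : ℂ) ^ 2 * (∑ k ∈ A, l k ^ 2) / 2‖ + ‖E‖ := by
        gcongr
        exact norm_sub_le _ _
    _ ≤ c * C + 2 * c ^ 2 + c ^ 2 := by
        rw [norm_neg]
        gcongr
    _ ≤ 1 / 8 := by nlinarith

theorem t_S3 (h1 : S_SB) (h2 : S_TR) : S_S3 := by
  intro M C hM hC
  set c : ℝ := 1 / (8 * (C + 4)) with hc
  have hcpos : 0 < c := by positivity
  have hcC : c * (C + 4) ≤ 1 / 8 := by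
    rw [hc]
    apply le_of_eq
    field_simp
  set K : ℝ := Real.exp (144 * (C * Real.sqrt M)) with hK
  have hKpos : 0 < K := Real.exp_pos _
  obtain ⟨N, hN⟩ := exists_nat_gt ((15 * K / c) ^ 2)
  refine ⟨N, fun m l a hNm hm hH hMa hs => ?_⟩
  obtain ⟨hb, hq, -⟩ := h1 m l a hm hH
  have hmR : (1 : ℝ) ≤ m := by exact_mod_cast hm
  have hsq : 1 ≤ Real.sqrt m := by
    rw [Real.one_le_sqrt]; exact hmR
  have hsq0 : 0 < Real.sqrt m := by linarith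
  have hsqm : Real.sqrt m * Real.sqrt m = m := Real.mul_self_sqrt (by linarith)
  have hc32 : c ≤ 1 / 32 := by nlinarith
  set ρ : ℝ := c / Real.sqrt m with hρ
  have hρpos : 0 < ρ := by positivity
  have hρc : ρ * Real.sqrt m = c := by
    rw [hρ]; field_simp
  have hρle : ρ ≤ c := by
    rw [hρ, div_le_iff₀ hsq0]; nlinarith
  have hapos := hH.pos
  have hahalf := hH.half
  -- the big part
  set B := Finset.univ.filter (fun k : Fin m => 4 < ‖l k‖) with hB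
  have hBsum : ∑ k ∈ B, ‖l k‖ = m * bB 4 l := by
    unfold bB
    rw [← hB]
    field_simp
  have hmsR : (m : ℝ) * ‖sR 4 l‖ ≤ Real.sqrt m * C := by
    calc (m : ℝ) * ‖sR 4 l‖ = Real.sqrt m * (Real.sqrt m * ‖sR 4 l‖) := by
          rw [← mul_assoc, hsqm]
      _ ≤ Real.sqrt m * C := mul_le_mul_of_nonneg_left hs hsq0.le
  have hBle : ∑ k ∈ B, ‖l k‖ ≤ 2 / 3 * (Real.sqrt m * C) := by
    rw [hBsum]
    have h3 : (sR 4 l).re ≤ ‖sR 4 l‖ := (le_abs_self _).trans (Complex.abs_re_le_norm _)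
    have h4 : bB 4 l ≤ 2 / 3 * ‖sR 4 l‖ := by
      refine hb.trans ?_
      have h5 : 4 / 3 * a * (sR 4 l).re ≤ 4 / 3 * a * ‖sR 4 l‖ :=
        mul_le_mul_of_nonneg_left h3 (by positivity)
      have h6 : 4 / 3 * a * ‖sR 4 l‖ ≤ 2 / 3 * ‖sR 4 l‖ :=
        mul_le_mul_of_nonneg_right (by linarith) (norm_nonneg _)
      exact h5.trans h6
    calc (m : ℝ) * bB 4 l ≤ m * (2 / 3 * ‖sR 4 l‖) := mul_le_mul_of_nonneg_left h4 (by linarith)
      _ = 2 / 3 * (m * ‖sR 4 l‖) := by ring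
      _ ≤ _ := by linarith
  -- the integrand
  have hint : ∀ τ : ℝ, 0 ≤ τ → τ ≤ ρ → ‖(∏ k, (1 - (τ : ℂ) * l k)) - 1‖ ≤ 9 / 16 := by
    intro τ hτ hτρ
    obtain ⟨ζ, hζ, hA⟩ := small_part h2 hm hH.mean hcpos hcC hC hs hτ hτρ
    have hτn : ‖(τ : ℂ)‖ = τ := by rw [Complex.norm_real, Real.norm_of_nonneg hτ]
    have e1 : ∏ k, (1 - (τ : ℂ) * l k) = (∏ k ∈ B, (1 - (τ : ℂ) * l k)) * Complex.exp ζ := by
      rw [← hA, hB, Finset.prod_filter_mul_prod_filter_not]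
    have h3 : ‖Complex.exp ζ - 1‖ ≤ 1 / 4 := by
      have := Complex.norm_exp_sub_one_le (x := ζ) (by linarith)
      linarith
    have h4 : ‖Complex.exp ζ‖ ≤ 5 / 4 := by
      calc ‖Complex.exp ζ‖ = ‖(Complex.exp ζ - 1) + 1‖ := by rw [sub_add_cancel]
        _ ≤ ‖Complex.exp ζ - 1‖ + ‖(1 : ℂ)‖ := norm_add_le _ _
        _ ≤ 5 / 4 := by rw [norm_one]; linarith
    have h5 : ‖(∏ k ∈ B, (1 - (τ : ℂ) * l k)) - 1‖ ≤ 1 / 4 := by
      have h6 := Finset.norm_prod_one_add_sub_one_le B (fun k => -((τ : ℂ) * l k))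
      simp only [← sub_eq_add_neg, norm_neg, norm_mul, hτn] at h6
      rw [← Finset.mul_sum] at h6
      have h7 : τ * ∑ k ∈ B, ‖l k‖ ≤ 1 / 8 := by
        calc τ * ∑ k ∈ B, ‖l k‖ ≤ ρ * (2 / 3 * (Real.sqrt m * C)) :=
              mul_le_mul hτρ hBle (Finset.sum_nonneg fun _ _ => norm_nonneg _) hρpos.le
          _ = 2 / 3 * ((ρ * Real.sqrt m) * C) := by ring
          _ = 2 / 3 * (c * C) := by rw [hρc]
          _ ≤ 1 / 8 := by nlinarith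
      have h8 : 0 ≤ τ * ∑ k ∈ B, ‖l k‖ :=
        mul_nonneg hτ (Finset.sum_nonneg fun _ _ => norm_nonneg _)
      have h9 : |Real.exp (τ * ∑ k ∈ B, ‖l k‖) - 1| ≤ 2 * |τ * ∑ k ∈ B, ‖l k‖| :=
        Real.abs_exp_sub_one_le (by rw [abs_of_nonneg h8]; linarith)
      rw [abs_of_nonneg h8] at h9
      have h10 := le_abs_self (Real.exp (τ * ∑ k ∈ B, ‖l k‖) - 1)
      linarith
    have e2 : (∏ k ∈ B, (1 - (τ : ℂ) * l k)) * Complex.exp ζ - 1 =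
        ((∏ k ∈ B, (1 - (τ : ℂ) * l k)) - 1) * Complex.exp ζ + (Complex.exp ζ - 1) := by ring
    rw [e1, e2]
    calc ‖((∏ k ∈ B, (1 - (τ : ℂ) * l k)) - 1) * Complex.exp ζ + (Complex.exp ζ - 1)‖
        ≤ ‖((∏ k ∈ B, (1 - (τ : ℂ) * l k)) - 1) * Complex.exp ζ‖ + ‖Complex.exp ζ - 1‖ :=
          norm_add_le _ _
      _ ≤ 1 / 4 * (5 / 4) + 1 / 4 := by
          rw [norm_mul]
          gcongr
      _ = 9 / 16 := by norm_num
  -- the lower bound of the integral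
  have hcont : Continuous (fun τ : ℝ => ∏ k, (1 - (τ : ℂ) * l k)) := by
    apply continuous_finsetProd
    intro k _
    fun_prop
  have hlow : ρ / 4 ≤ ‖∫ τ in (0:ℝ)..ρ, ∏ k, (1 - (τ : ℂ) * l k)‖ := by
    have h3 : ‖∫ τ in (0:ℝ)..ρ, ((∏ k, (1 - (τ : ℂ) * l k)) - 1)‖ ≤ 9 / 16 * |ρ - 0| := by
      apply intervalIntegral.norm_integral_le_of_norm_le_const
      intro τ hτ
      rw [Set.uIoc_of_le hρpos.le] at hτ
      exact hint τ hτ.1.le hτ.2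
    rw [intervalIntegral.integral_sub (hcont.intervalIntegrable _ _)
      (continuous_const.intervalIntegrable _ _), intervalIntegral.integral_const, sub_zero,
      abs_of_pos hρpos] at h3
    have h4 : ‖(ρ • (1 : ℂ))‖ = ρ := by
      rw [norm_smul, norm_one, mul_one, Real.norm_of_nonneg hρpos.le]
    have h5 : ‖(ρ • (1 : ℂ))‖ ≤ ‖∫ τ in (0:ℝ)..ρ, ∏ k, (1 - (τ : ℂ) * l k)‖ +
        ‖(∫ τ in (0:ℝ)..ρ, ∏ k, (1 - (τ : ℂ) * l k)) - ρ • (1 : ℂ)‖ := by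
      calc ‖(ρ • (1 : ℂ))‖ = ‖(∫ τ in (0:ℝ)..ρ, ∏ k, (1 - (τ : ℂ) * l k)) -
            ((∫ τ in (0:ℝ)..ρ, ∏ k, (1 - (τ : ℂ) * l k)) - ρ • (1 : ℂ))‖ := by
            rw [sub_sub_cancel]
        _ ≤ _ := norm_sub_le _ _
    rw [h4] at h5
    linarith
  -- the upper bound
  have hup := hH.ep 1 ρ norm_one hρpos (by linarith)
  simp only [one_mul] at hup
  have hSA : ∏ k ∈ Finset.univ.filter (fun k => ¬ 4 < ‖l k‖), ‖1 - (ρ : ℂ) * l k‖ ≤ 5 / 4 := by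
    obtain ⟨ζ, hζ, hA⟩ := small_part h2 hm hH.mean hcpos hcC hC hs hρpos.le le_rfl
    rw [← norm_prod, hA]
    have h3 := Complex.norm_exp_sub_one_le (x := ζ) (by linarith)
    calc ‖Complex.exp ζ‖ = ‖(Complex.exp ζ - 1) + 1‖ := by rw [sub_add_cancel]
      _ ≤ ‖Complex.exp ζ - 1‖ + ‖(1 : ℂ)‖ := norm_add_le _ _
      _ ≤ 5 / 4 := by rw [norm_one]; linarith
  have haM : a * Real.sqrt m ≤ Real.sqrt M := by
    apply Real.le_sqrt_of_sq_le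
    rw [mul_pow, Real.sq_sqrt (by linarith)]
    linarith
  have hexp : Real.exp (72 * ∑ k, (‖l k‖ - ‖1 - (a : ℂ) * l k‖)) ≤ K := by
    rw [hK]
    apply Real.exp_le_exp.2
    have h3 : 2 * a * m * ‖sR 4 l‖ ≤ 2 * (C * Real.sqrt M) := by
      calc 2 * a * m * ‖sR 4 l‖ = 2 * a * (m * ‖sR 4 l‖) := by ring
        _ ≤ 2 * a * (Real.sqrt m * C) := mul_le_mul_of_nonneg_left hmsR (by positivity)
        _ = 2 * (C * (a * Real.sqrt m)) := by ring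
        _ ≤ 2 * (C * Real.sqrt M) := by gcongr
    linarith
  have hfin : ρ / 4 ≤ 3 / (m + 1) * K * (5 / 4) := by
    refine hlow.trans (hup.trans ?_)
    have h3 : (0 : ℝ) ≤ 3 / (m + 1) := by positivity
    refine mul_le_mul (mul_le_mul_of_nonneg_left hexp h3) hSA
      (Finset.prod_nonneg fun _ _ => norm_nonneg _) (by positivity)
  -- contradiction
  have h3 : c * (m + 1) ≤ 15 * K * Real.sqrt m := by
    have h4 : ρ / 4 * (m + 1) * Real.sqrt m ≤ 3 / (m + 1) * K * (5 / 4) * (m + 1) * Real.sqrt m := by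
      gcongr
    have e1 : ρ / 4 * (m + 1) * Real.sqrt m = c * (m + 1) / 4 := by
      rw [← hρc]; ring
    have e2 : 3 / ((m : ℝ) + 1) * K * (5 / 4) * (m + 1) * Real.sqrt m = 15 / 4 * K * Real.sqrt m := by
      field_simp
      norm_num
    rw [e1, e2] at h4
    linarith
  have h4 : Real.sqrt m ≤ 15 * K / c := by
    rw [le_div_iff₀ hcpos]
    have h5 : c * (Real.sqrt m * Real.sqrt m) ≤ 15 * K * Real.sqrt m := by
      rw [hsqm]
      linarith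
    have h6 : (c * Real.sqrt m) * Real.sqrt m ≤ (15 * K) * Real.sqrt m := by
      linarith
    have h7 := le_of_mul_le_mul_right h6 hsq0
    linarith
  have h5 : (m : ℝ) ≤ (15 * K / c) ^ 2 := by
    calc (m : ℝ) = Real.sqrt m ^ 2 := (Real.sq_sqrt (by linarith)).symm
      _ ≤ _ := pow_le_pow_left₀ hsq0.le h4 2
  have h6 : (N : ℝ) ≤ m := by exact_mod_cast hNm
  linarith

end Pool.Agent.H789.BV
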